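import Mathlib

/-!
MP_9f2731_nt, directory GP (architect helper78): geometric progressions in the shifted primes
(generalized Cunningham chains of the second kind). Definitions and the interfaces of the blocks:
Dhj : DhjStmt; Rel : DhjStmt → RelStmt; Sv : CorStmt and MomStmt; Rom : RomStmt; Ap : ApStmt;
Fin : RelStmt → CorStmt → MomStmt → RomPStmt → ApStmt → ResStmt.
-/

namespace Pool.Agent.Lib.MP_9f2731_nt.GP

open Finset

/-! ### Density Hales-Jewett -/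

/-- the points of the line of a word `w` (the letter `none` is the wildcard) -/
def lineMap {k n : ℕ} (w : Fin n → Option (Fin k)) (i : Fin k) : Fin n → Fin k :=
  fun t => (w t).getD i

/-- Density Hales-Jewett theorem for all alphabets. -/
def DhjStmt : Prop :=
  ∀ (k : ℕ) (δ : ℝ), 0 < δ → ∃ n : ℕ, ∀ A : Finset (Fin n → Fin k), δ * (k : ℝ) ^ n ≤ (A.card : ℝ) →
    ∃ w : Fin n → Option (Fin k), (∃ t, w t = none) ∧ ∀ i, lineMap w i ∈ A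

/-! ### Relative Szemeredi theorem -/

/-- the j-th form `∑ (i - j) y_i` -/
def frm {G : Type} [AddCommGroup G] {k : ℕ} (j : Fin k) (y : Fin k → G) : G :=
  ∑ i : Fin k, (((i : ℕ) : ℤ) - ((j : ℕ) : ℤ)) • y i

/-- the k-linear forms condition of Conlon, Fox and Zhao with error η -/
def LFC {G : Type} [AddCommGroup G] [Fintype G] (k : ℕ) (η : ℝ) (ν : G → ℝ) : Prop :=
  ∀ S : Finset (Fin k × (Fin k → Bool)), (∀ p ∈ S, p.2 p.1 = false) →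
    |(∑ x : Fin k × Bool → G, ∏ p ∈ S, ν (frm p.1 (fun i => x (i, p.2 i)))) /
      (Fintype.card G : ℝ) ^ (2 * k) - 1| ≤ η

/-- Relative Szemeredi theorem with counts in finite abelian groups. -/
def RelStmt : Prop :=
  ∀ (k : ℕ) (δ : ℝ), 3 ≤ k → 0 < δ → ∃ (c η : ℝ) (n0 : ℕ), 0 < c ∧ 0 < η ∧
    ∀ (G : Type) [AddCommGroup G] [Fintype G],
      (∀ n : ℕ, 1 ≤ n → n ≤ n0 → Function.Injective (fun x : G => n • x)) →
      ∀ ν f : G → ℝ, (∀ x, 0 ≤ f x) → (∀ x, f x ≤ ν x) → LFC k η ν →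
      δ * (Fintype.card G : ℝ) ≤ ∑ x, f x →
      c * (Fintype.card G : ℝ) ^ 2 ≤ ∑ x : G, ∑ d : G, ∏ j : Fin k, f (x + (j : ℕ) • d)

/-! ### Sieve -/

/-- truncated divisor sum with the cutoff `(1 - t)^l` -/
noncomputable def Lam (l : ℕ) (R : ℝ) (n : ℕ) : ℝ :=
  ∑ d ∈ n.divisors.filter (fun d : ℕ => (d : ℝ) ≤ R),
    ((ArithmeticFunction.moebius d : ℤ) : ℝ) * (1 - Real.log d / Real.log R) ^ l

/-- product of the primes at most w -/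
def Wp (w : ℕ) : ℕ := primorial w

/-- the majorant: normalized square of Lam for numbers 1 modulo Wp w -/
noncomputable def nu (l w : ℕ) (R : ℝ) (n : ℕ) : ℝ :=
  ((Wp w).totient / (Wp w) : ℝ) * Real.log R * ((2 * (l : ℝ) - 1) / (l : ℝ) ^ 2) * (Lam l R n) ^ 2

/-- product of `1 + C/p` over the prime factors p > w of n -/
noncomputable def sing (C : ℝ) (w n : ℕ) : ℝ :=
  ∏ p ∈ n.primeFactors.filter (fun p => w < p), (1 + C / (p : ℝ))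

/-- product of all differences -/
def Del (S : Finset ℕ) : ℕ := ∏ a ∈ (S ×ˢ S).filter (fun a => a.1 < a.2), (a.2 - a.1)

/-- all prime factors are at most w -/
def Sm (w m : ℕ) : Prop := 1 ≤ m ∧ ∀ p : ℕ, p.Prime → p ∣ m → p ≤ w

/-- Correlations of the majorant in one variable. -/
def CorStmt : Prop :=
  ∀ J : ℕ, ∃ (l : ℕ) (κ C : ℝ), 1 ≤ l ∧ 0 < κ ∧ 2 * J * κ ≤ 1 ∧ 0 < C ∧ ∀ η : ℝ, 0 < η →
    ∃ w0 : ℕ, ∀ w : ℕ, w0 ≤ w → ∃ X0 : ℝ, ∀ X : ℕ, X0 ≤ X → ∀ S : Finset ℕ, S.card ≤ J →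
    (∀ m ∈ S, Sm w m) →
    |(∑ b ∈ Icc 1 X, ∏ m ∈ S, nu l w ((X : ℝ) ^ κ) (Wp w * b * m + 1)) / X - 1| ≤
      η + C * (sing C w (Del S) - 1)

/-- Moments of the majorant (the exponent C does not depend on w, l, κ). -/
def MomStmt : Prop :=
  ∀ J : ℕ, ∃ C : ℝ, 0 < C ∧ ∀ (l w : ℕ) (κ : ℝ), 1 ≤ l → 0 < κ → 2 * J * κ ≤ 1 →
    ∃ X0 : ℝ, ∀ X : ℕ, X0 ≤ X → ∀ m : ℕ, Sm w m →
    (∑ b ∈ Icc 1 X, (nu l w ((X : ℝ) ^ κ) (Wp w * b * m + 1)) ^ J) / X ≤ (Real.log X) ^ C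

/-! ### Primes in progressions to smooth moduli -/

/-- Primes 1 modulo Wp w * m for smooth m (lower bound). -/
def ApStmt : Prop :=
  ∃ ε1 : ℝ, 0 < ε1 ∧ ∀ w : ℕ, 2 ≤ w → ∃ X0 : ℝ, ∀ X : ℕ, X0 ≤ X → ∀ m : ℕ, Sm w m →
    Real.log m ≤ (Real.log X) ^ ε1 →
    (1 / 4 : ℝ) * (((Wp w : ℝ) / (Wp w).totient) * X / Real.log X) ≤
      (((Icc 1 X).filter (fun b => (Wp w * b * m + 1).Prime)).card : ℝ)

/-! ### The exponent lattice -/

/-- multiplier of a point of the exponent lattice -/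
def mlt {T M : ℕ} (q : Fin T → ℕ) (x : Fin (T + 1) → ZMod M) : ℕ :=
  ∏ j : Fin T, q j ^ ((x j.succ).val + M * (x 0).val)

/-- the box of side N -/
def Bx (T M N : ℕ) (x : Fin (T + 1) → ZMod M) : Prop := ∀ j, (x j).val < N

instance (T M N : ℕ) : DecidablePred (Bx T M N) := fun x => by unfold Bx; infer_instance

/-- Romanoff type mean value of the singular factor over pairs of points of the box. -/
def RomStmt : Prop :=
  ∀ (T : ℕ) (q : Fin T → ℕ), 1 ≤ T → (∀ j, (q j).Prime) → ∀ C η : ℝ, 0 < C → 0 < η →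
    ∃ w0 : ℕ, ∀ w : ℕ, w0 ≤ w → ∃ N0 : ℕ, ∀ (N M : ℕ) [NeZero M], N0 ≤ N → N < M → M ≤ 4 * N →
    ∑ u : Fin (T + 1) → ZMod M, ∑ v : Fin (T + 1) → ZMod M,
      (if Bx T M N u ∧ Bx T M N v ∧ u ≠ v then
        sing C w (Nat.dist (mlt q u) (mlt q v)) - 1 else 0) ≤ η * ((N : ℝ) ^ (T + 1)) ^ 2

/-- Pointwise form of RomStmt: only one coordinate of v (with a prime q i) is varied. It implies RomStmt. -/
def RomPStmt : Prop :=
  ∀ (T : ℕ) (q : Fin T → ℕ), (∀ j, (q j).Prime) → ∀ C η : ℝ, 0 < C → 0 < η →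
    ∃ w0 : ℕ, ∀ w : ℕ, w0 ≤ w → ∃ N0 : ℕ, ∀ (N M : ℕ) [NeZero M], N0 ≤ N → N < M → M ≤ 4 * N →
    ∀ (i : Fin T) (u v : Fin (T + 1) → ZMod M),
    ∑ a ∈ range N, (if Function.update v i.succ ((a : ℕ) : ZMod M) ≠ u then
        sing C w (Nat.dist (mlt q u) (mlt q (Function.update v i.succ ((a : ℕ) : ZMod M)))) - 1
      else 0) ≤ η * (N : ℝ)

/-! ### The theorem -/

/-- all prime factors of n are among the q j -/
def Gen {T : ℕ} (q : Fin T → ℕ) (n : ℕ) : Prop := 1 ≤ n ∧ ∀ p : ℕ, p.Prime → p ∣ n → ∃ j, p = q j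

/-- The numbers a with a chain of length k. -/
def good (k : ℕ) (ε : ℝ) {T : ℕ} (q : Fin T → ℕ) (X : ℕ) : Set ℕ :=
  {a | 1 ≤ a ∧ a ≤ X ∧ ∃ s r : ℕ, Gen q s ∧ Gen q r ∧ 2 ≤ r ∧
    (s : ℝ) ≤ Real.exp ((Real.log X) ^ ε) ∧ (r : ℝ) ≤ Real.exp ((Real.log X) ^ ε) ∧
    ∀ i : ℕ, i < k → (a * s * r ^ i + 1).Prime}

/-- Geometric progressions in the shifted primes. -/
def ResStmt : Prop :=
  ∀ (k : ℕ) (ε : ℝ), 0 < ε → ∃ T : ℕ, ∀ q : Fin T → ℕ, (∀ j, (q j).Prime) → Function.Injective q →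
    ∃ c : ℝ, 0 < c ∧ ∃ X0 : ℝ, ∀ X : ℕ, X0 ≤ X → c * X ≤ ((good k ε q X).ncard : ℝ)

end Pool.Agent.Lib.MP_9f2731_nt.GP
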