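import Pool.Agent.Lib.MP_9f2731_nt.GP.Dhj.All
import Pool.Agent.Lib.MP_9f2731_nt.GP.Rel.All
import Pool.Agent.Lib.MP_9f2731_nt.GP.Rom.All
import Pool.Agent.Lib.MP_9f2731_nt.GP.Ap.All
import Pool.Agent.Lib.MP_9f2731_nt.GP.Sv.All
import Pool.Agent.Lib.MP_9f2731_nt.GP.Asm.All

/-!
MP_9f2731_nt, GP: geometric progressions in the shifted primes, all blocks together.
-/

namespace Pool.Agent.Lib.MP_9f2731_nt.GP

theorem gpAll : ResStmt ∧ Alm.BsaStmt :=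
  Asm.asmAll (Rel.relAll Dhj.dhjAll) Sv.svAll Rom.momAll Rom.romAll Ap.aAp

end Pool.Agent.Lib.MP_9f2731_nt.GP
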