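import Pool.Agent.Lib.MP_9f2731_nt.GP.Defs

/-!
The statement of the hand-in GeometricProgressions from `ResStmt`.
-/

namespace Pool.Agent.Lib.MP_9f2731_nt.GP

open Finset

theorem gp_step (A r j : ℕ) :
    ((A * r ^ (j + 1) + 1 : ℕ) : ℤ) = (r : ℤ) * ((A * r ^ j + 1 : ℕ) : ℤ) - ((r : ℤ) - 1) := by
  push_cast
  ring

theorem gp_handIn (h : ResStmt) (k : ℕ) (ε : ℝ) (hε : 0 < ε) :
    ∃ T : ℕ, ∀ S : Finset ℕ, (∀ q ∈ S, q.Prime) → T ≤ S.card →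
      ∃ c : ℝ, 0 < c ∧ ∃ X₀ : ℝ, ∀ X : ℕ, X₀ ≤ X →
        c * X ≤ (({a : ℕ | 1 ≤ a ∧ a ≤ X ∧ ∃ s r : ℕ, 1 ≤ s ∧ 2 ≤ r ∧
          (∀ q : ℕ, q.Prime → q ∣ s * r → q ∈ S) ∧
          (s : ℝ) ≤ Real.exp (Real.log X ^ ε) ∧ (r : ℝ) ≤ Real.exp (Real.log X ^ ε) ∧
          ∃ p : ℕ → ℕ, p 1 = a * s + 1 ∧ (∀ i, 1 ≤ i → i ≤ k → (p i).Prime) ∧
            ∀ i, 1 ≤ i → (p (i + 1) : ℤ) = r * p i - (r - 1)}.ncard : ℕ) : ℝ) := by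
  obtain ⟨T, hT⟩ := h k ε hε
  refine ⟨T, fun S hS hcard => ?_⟩
  obtain ⟨S', hS', hc'⟩ := Finset.exists_subset_card_eq hcard
  let e : Fin T ≃ S' := (Fin.castOrderIso hc'.symm).toEquiv.trans S'.equivFin.symm
  let q : Fin T → ℕ := fun j => (e j : ℕ)
  have hq : ∀ j, (q j).Prime := fun j => hS _ (hS' (e j).2)
  have hinj : Function.Injective q := fun i j hij => e.injective (Subtype.ext hij)
  obtain ⟨c, hc, X₀, hX⟩ := hT q hq hinj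
  refine ⟨c, hc, X₀, fun X hX0 => (hX X hX0).trans ?_⟩
  norm_cast
  refine Set.ncard_le_ncard ?_ ((Set.finite_Icc 1 X).subset fun a ha => ⟨ha.1, ha.2.1⟩)
  rintro a ⟨ha1, ha2, s, r, hs, hr, hr2, hsX, hrX, hp⟩
  refine ⟨ha1, ha2, s, r, hs.1, hr2, ?_, hsX, hrX, fun i => a * s * r ^ (i - 1) + 1, by simp, ?_, ?_⟩
  · intro p hp hd
    rcases (Nat.Prime.dvd_mul hp).mp hd with h1 | h1
    · obtain ⟨j, rfl⟩ := hs.2 p hp h1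
      exact hS' (e j).2
    · obtain ⟨j, rfl⟩ := hr.2 p hp h1
      exact hS' (e j).2
  · intro i h1 h2
    exact hp (i - 1) (by omega)
  · intro i h1
    obtain ⟨j, rfl⟩ : ∃ j, i = j + 1 := ⟨i - 1, by omega⟩
    exact gp_step (a * s) r j

end Pool.Agent.Lib.MP_9f2731_nt.GP
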